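import Pool.Agent.H86.BallBoundary
import Pool.Agent.H86.HaarNull
import Pool.Agent.H86.Rot

/-!
# The homeomorphism group of the ball is a union of a meager set and a Haar null set

Idea of the proof. Let `φ` be a Haar-random rotation.  For distinct points `x₁, …, x_N` of the unit
sphere and a homeomorphism `f` of the ball choose `ε` such that the balls `B(f xᵢ, ε)` are pairwise
disjoint, and let `U` be the open set of all `f'` with `|f' xᵢ - f xᵢ| < ε` for all `i`.
For all homeomorphisms `g, h` of the ball the point `h xᵢ` is again on the sphere (invariance of the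
boundary, proved here via Brouwer), hence `φ (h xᵢ)` is uniformly distributed on the sphere, and the
events `g φ h xᵢ ∈ B(f xᵢ, ε)` have total probability at most `1`.  So `g φ h ∈ U` has probability
at most `1 / N`.  Doing this for a dense sequence of homeomorphisms `f` and rapidly growing `N` gives a
dense `G_δ` set which is Haar null.
-/

open MeasureTheory Set Metric Filter Topology

namespace Pool.Agent.Results.MP_ee7e89_lc.BallDecomposition

open Pool.Agent.H86

lemma toEuclideanLin_coord {n : ℕ} (A : Matrix (Fin n) (Fin n) ℝ) (v : EuclideanSpace ℝ (Fin n))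
    (i : Fin n) : Matrix.toEuclideanLin A v i = ∑ j, A i j * v j := rfl

lemma infinite_sphere (n : ℕ) (hn : 2 ≤ n) :
    {x : CBall n | ‖(x : EuclideanSpace ℝ (Fin n))‖ = 1}.Infinite := by
  have hrank : 1 < Module.rank ℝ (EuclideanSpace ℝ (Fin n)) := by
    rw [← Module.finrank_eq_rank, finrank_euclideanSpace, Fintype.card_fin]
    exact_mod_cast hn
  have hpre := isPreconnected_sphere hrank (0 : EuclideanSpace ℝ (Fin n)) 1
  have hnt : (sphere (0 : EuclideanSpace ℝ (Fin n)) 1).Nontrivial := by
    have h0 : 0 < n := by omega
    let e : EuclideanSpace ℝ (Fin n) := EuclideanSpace.single ⟨0, h0⟩ 1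
    have he : ‖e‖ = 1 := by simp [e]
    refine ⟨e, by simp [he], -e, by simp [he], fun h => ?_⟩
    have h2 : (2 : ℝ) • e = 0 := by
      rw [two_smul]
      nth_rewrite 2 [h]
      exact add_neg_cancel e
    have h4 : e = 0 := (smul_eq_zero.1 h2).resolve_left two_ne_zero
    rw [h4, norm_zero] at he
    norm_num at he
  have hinf := hpre.infinite_of_nontrivial hnt
  have h3 : {x : CBall n | ‖(x : EuclideanSpace ℝ (Fin n))‖ = 1}
      = Subtype.val ⁻¹' (sphere (0 : EuclideanSpace ℝ (Fin n)) 1) := by
    ext x; simp
  rw [h3]
  refine hinf.preimage ?_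
  rw [Subtype.range_coe]
  exact sphere_subset_closedBall

/-- The homomorphism `SO(n) → BallHomeo n`. -/
noncomputable def rot (n : ℕ) : SO n →* BallHomeo n := rotHom n

lemma isRotation_rot {n : ℕ} (A : SO n) : IsRotation (rot n A) :=
  ⟨A.1, A.2, fun x i => toEuclideanLin_coord A.1 x.val i⟩

/-- The continuous self-map underlying a self-homeomorphism of the ball. -/
def toMap {n : ℕ} (φ : BallHomeo n) : C(CBall n, CBall n) := ⟨φ.toFun, φ.continuous_toFun⟩

lemma isInducing_toMap {n : ℕ} : IsInducing (toMap (n := n)) := ⟨rfl⟩

lemma continuous_rot {n : ℕ} : Continuous (rot n) := by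
  rw [isInducing_toMap.continuous_iff]
  refine ContinuousMap.continuous_of_continuous_uncurry _ ?_
  exact continuous_rotHom

/-- For `n ≥ 2` and every group `G` of self-homeomorphisms of the closed unit ball of `ℝⁿ` that
contains all rotations, `G` (with the topology of uniform convergence) is the union of a meager set
and a Haar null set. In particular this holds for the group of orientation-preserving
homeomorphisms. -/
theorem result (n : ℕ) (hn : 2 ≤ n) (G : Subgroup (BallHomeo n))
    (hG : ∀ φ : BallHomeo n, IsRotation φ → φ ∈ G) :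
    ∃ M N : Set G, IsMeagre M ∧ IsHaarNull N ∧ M ∪ N = Set.univ := by
  have hcomp : CompactSpace (CBall n) := isCompact_iff_compactSpace.1 (isCompact_closedBall 0 1)
  have hind : IsInducing (fun g : G => toMap (g : BallHomeo n)) :=
    isInducing_toMap.comp IsInducing.subtypeVal
  refine exists_meagre_union_haarNull (fun g : G => toMap (g : BallHomeo n)) hind
    (fun g h => rfl) rfl {x : CBall n | ‖(x : EuclideanSpace ℝ (Fin n))‖ = 1}
    (infinite_sphere n hn) ?_
    ((rot n).codRestrict G fun A => hG _ (isRotation_rot A)) ?_ ?_
  · -- invariance of the boundary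
    intro g x hx
    exact norm_homeo_ball_eq_one (g : BallHomeo n) x hx
  · exact continuous_rot.subtype_mk _
  · intro x hx y hy
    obtain ⟨A, hA, hAx⟩ := exists_rotation_sphere hn x.1 y.1 hx hy
    exact ⟨⟨A, hA⟩, Subtype.ext hAx⟩

end Pool.Agent.Results.MP_ee7e89_lc.BallDecomposition
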